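import Mathlib

set_option autoImplicit false

namespace Pool.Agent.Results.MP_529e31_an.DiscreteDetecting

open Filter

/-- `f` belongs to `E_ρ`: entire of order `ρ` and finite type. -/
def MemE (ρ : ℝ) (f : ℂ → ℂ) : Prop :=
  Differentiable ℂ f ∧ ∃ A B : ℝ, 0 < A ∧ 0 < B ∧ ∀ z : ℂ, ‖f z‖ ≤ B * Real.exp (A * ‖z‖ ^ ρ)

/-- `k` belongs to `K_ρ`. -/
def MemK (ρ : ℝ) (k : ℂ → ℝ) : Prop :=
  Continuous k ∧ (∀ z : ℂ, 0 < k z) ∧
    ∀ A : ℝ, 0 < A →
      Asymptotics.IsLittleO (cocompact ℂ) (fun z : ℂ => Real.exp (A * ‖z‖ ^ ρ)) k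

/-- `S` is a sufficient set for `E_ρ`. -/
def Sufficient (ρ : ℝ) (S : Set ℂ) : Prop :=
  ∀ k : ℂ → ℝ, MemK ρ k → ∃ k' : ℂ → ℝ, MemK ρ k' ∧ ∃ C : ℝ, 0 < C ∧
    ∀ f : ℂ → ℂ, MemE ρ f → (∀ z ∈ S, ‖f z‖ ≤ k' z) → ∀ z : ℂ, ‖f z‖ ≤ C * k z

/-- auxiliary numbers -/
noncomputable def R (n : ℕ) : ℝ := (5 : ℝ) ^ (5 ^ n)

lemma R_succ (n : ℕ) : R (n + 1) = R n ^ 5 := by
  unfold R
  rw [← pow_mul, pow_succ]

lemma five_le_R (n : ℕ) : 5 ≤ R n := by
  unfold R
  have h : (5 : ℝ) ^ 1 ≤ (5 : ℝ) ^ (5 ^ n) := by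
    apply pow_le_pow_right₀ (by norm_num)
    exact Nat.one_le_pow _ _ (by norm_num)
  simpa using h

lemma R_mono : Monotone R := by
  intro a b hab
  unfold R
  apply pow_le_pow_right₀ (by norm_num)
  exact Nat.pow_le_pow_right (by norm_num) hab

lemma tendsto_R : Tendsto R atTop atTop := by
  unfold R
  apply (tendsto_pow_atTop_atTop_of_one_lt (by norm_num : (1 : ℝ) < 5)).comp
  exact tendsto_pow_atTop_atTop_of_one_lt (by norm_num : 1 < 5)

/-- the radii -/
noncomputable def rad (ρ : ℝ) (n : ℕ) : ℝ := R n ^ (1 / ρ)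

lemma rad_pos (ρ : ℝ) (n : ℕ) : 0 < rad ρ n := by
  unfold rad
  have := five_le_R n
  positivity

lemma one_le_rad {ρ : ℝ} (hρ : 0 < ρ) (n : ℕ) : 1 ≤ rad ρ n := by
  unfold rad
  apply Real.one_le_rpow (by linarith [five_le_R n]) (by positivity)

lemma rad_rpow {ρ : ℝ} (hρ : 0 < ρ) (n : ℕ) : rad ρ n ^ ρ = R n := by
  unfold rad
  have := five_le_R n
  rw [← Real.rpow_mul (by linarith)]
  rw [one_div_mul_cancel hρ.ne', Real.rpow_one]

lemma rad_mono {ρ : ℝ} (hρ : 0 < ρ) : Monotone (rad ρ) := by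
  intro a b hab
  unfold rad
  have := five_le_R a
  exact Real.rpow_le_rpow (by linarith) (R_mono hab) (by positivity)

lemma tendsto_rad {ρ : ℝ} (hρ : 0 < ρ) : Tendsto (rad ρ) atTop atTop := by
  unfold rad
  exact (tendsto_rpow_atTop (by positivity)).comp tendsto_R

/-- the exponents -/
noncomputable def mexp (ρ : ℝ) (n : ℕ) : ℕ := ⌊ρ * R n ^ 3⌋₊

lemma mexp_le {ρ : ℝ} (hρ : 0 < ρ) (n : ℕ) : (mexp ρ n : ℝ) ≤ ρ * R n ^ 3 := by
  apply Nat.floor_le
  have := five_le_R n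
  positivity

lemma lt_mexp (ρ : ℝ) (n : ℕ) : ρ * R n ^ 3 < mexp ρ n + 1 :=
  Nat.lt_floor_add_one _

/-- the monomials -/
noncomputable def mono (ρ : ℝ) (n : ℕ) (z : ℂ) : ℂ := (z / (rad ρ n : ℂ)) ^ (mexp ρ n)

lemma norm_mono (ρ : ℝ) (n : ℕ) (z : ℂ) : ‖mono ρ n z‖ = (‖z‖ / rad ρ n) ^ (mexp ρ n) := by
  unfold mono
  rw [norm_pow, norm_div, Complex.norm_real, Real.norm_of_nonneg (rad_pos ρ n).le]

lemma mono_le {ρ : ℝ} (hρ : 0 < ρ) (n j : ℕ) (z : ℂ) (hj : ‖z‖ = rad ρ j) :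
    ‖mono ρ n z‖ ≤ Real.exp (‖z‖ ^ ρ) := by
  have hn := five_le_R n
  rw [norm_mono]
  rcases le_or_gt j n with hjn | hjn
  · have h1 : (‖z‖ / rad ρ n) ^ (mexp ρ n) ≤ 1 := by
      apply pow_le_one₀ (by have := rad_pos ρ n; positivity)
      rw [div_le_one (rad_pos ρ n), hj]
      exact rad_mono hρ hjn
    exact h1.trans (Real.one_le_exp (by positivity))
  · obtain ⟨i, rfl⟩ : ∃ i, j = i + 1 := ⟨j - 1, by omega⟩
    have hin : n ≤ i := by omega
    have hs := five_le_R i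
    have hni := R_mono hin
    have hj1 := five_le_R (i + 1)
    have h1 : ‖z‖ / rad ρ n ≤ rad ρ (i + 1) := by
      rw [hj]
      exact div_le_self (rad_pos ρ _).le (one_le_rad hρ n)
    have h0 : 0 ≤ ‖z‖ / rad ρ n := by have := rad_pos ρ n; positivity
    rw [hj, rad_rpow hρ, R_succ]
    rw [hj] at h1 h0
    calc (rad ρ (i + 1) / rad ρ n) ^ (mexp ρ n) ≤ (rad ρ (i + 1)) ^ (mexp ρ n) := by gcongr
      _ = Real.exp ((mexp ρ n : ℝ) * (Real.log (R (i + 1)) * (1 / ρ))) := by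
          unfold rad
          rw [Real.rpow_def_of_pos (by linarith), ← Real.exp_nat_mul]
      _ ≤ Real.exp (R i ^ 5) := by
          apply Real.exp_le_exp.mpr
          have hlog : Real.log (R (i + 1)) = 5 * Real.log (R i) := by
            rw [R_succ, Real.log_pow]; norm_num
          have hlog2 : Real.log (R i) ≤ R i := by
            have := Real.log_le_sub_one_of_pos (by linarith : 0 < R i)
            linarith
          have hlog0 : 0 ≤ Real.log (R i) := Real.log_nonneg (by linarith)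
          rw [hlog]
          calc (mexp ρ n : ℝ) * (5 * Real.log (R i) * (1 / ρ))
              ≤ (ρ * R n ^ 3) * (5 * Real.log (R i) * (1 / ρ)) := by
                gcongr
                exact mexp_le hρ n
            _ = R n ^ 3 * (5 * Real.log (R i)) := by field_simp
            _ ≤ R i ^ 3 * (5 * R i) := by gcongr
            _ ≤ R i ^ 3 * (R i * R i) := by gcongr
            _ = R i ^ 5 := by ring

lemma differentiable_mono (ρ : ℝ) (n : ℕ) : Differentiable ℂ (mono ρ n) := by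
  unfold mono
  fun_prop

/-- The weight. -/
noncomputable def wt (ρ : ℝ) (z : ℂ) : ℝ := Real.exp ((‖z‖ ^ ρ) ^ 2)

lemma wt_memK {ρ : ℝ} (hρ : 0 < ρ) : MemK ρ (wt ρ) := by
  refine ⟨?_, fun z => Real.exp_pos _, fun A hA => ?_⟩
  · unfold wt
    apply Real.continuous_exp.comp
    apply Continuous.pow
    exact continuous_norm.rpow_const (fun z => Or.inr hρ.le)
  · unfold wt
    rw [Real.isLittleO_exp_comp_exp_comp]
    have h1 : Tendsto (fun t : ℝ => t * (t - A)) atTop atTop :=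
      tendsto_id.atTop_mul_atTop₀ (tendsto_atTop_add_const_right _ _ tendsto_id)
    have h2 := h1.comp ((tendsto_rpow_atTop hρ).comp (tendsto_norm_cocompact_atTop (E := ℂ)))
    refine h2.congr (fun z => ?_)
    simp only [Function.comp]
    ring

lemma mono_memE {ρ : ℝ} (hρ : 0 < ρ) (n : ℕ) (c : ℂ) : MemE ρ (fun z => c * mono ρ n z) := by
  refine ⟨(differentiable_mono ρ n).const_mul _, ?_⟩
  -- |z|^m ≤ exp ((m/ρ) log |z|^ρ) ≤ exp ((m/ρ) |z|^ρ)
  refine ⟨(mexp ρ n : ℝ) / ρ + 1, ‖c‖ + 1, by positivity, by positivity, fun z => ?_⟩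
  rw [norm_mul]
  have h1 : ‖mono ρ n z‖ ≤ Real.exp (((mexp ρ n : ℝ) / ρ + 1) * ‖z‖ ^ ρ) := by
    rw [norm_mono]
    have hr := one_le_rad hρ n
    have h0 : 0 ≤ ‖z‖ / rad ρ n := by positivity
    have h2 : ‖z‖ / rad ρ n ≤ ‖z‖ := div_le_self (norm_nonneg z) hr
    have h3 : ‖z‖ ≤ Real.exp (‖z‖ ^ ρ / ρ) := by
      rcases (norm_nonneg z).eq_or_lt with hz | hz
      · rw [← hz]; exact (Real.exp_pos _).le
      · have h5 : Real.log ‖z‖ ≤ ‖z‖ ^ ρ / ρ := Real.log_le_rpow_div hz.le hρ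
        calc ‖z‖ = Real.exp (Real.log ‖z‖) := (Real.exp_log hz).symm
          _ ≤ _ := Real.exp_le_exp.mpr h5
    calc (‖z‖ / rad ρ n) ^ (mexp ρ n) ≤ (Real.exp (‖z‖ ^ ρ / ρ)) ^ (mexp ρ n) := by
          gcongr
          exact h2.trans h3
      _ = Real.exp ((mexp ρ n : ℝ) / ρ * ‖z‖ ^ ρ) := by
          rw [← Real.exp_nat_mul]; congr 1; ring
      _ ≤ _ := by
          apply Real.exp_le_exp.mpr
          have : 0 ≤ ‖z‖ ^ ρ := by positivity
          nlinarith
  have hc : 0 ≤ ‖c‖ := norm_nonneg c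
  calc ‖c‖ * ‖mono ρ n z‖ ≤ ‖c‖ * Real.exp (((mexp ρ n : ℝ) / ρ + 1) * ‖z‖ ^ ρ) := by gcongr
    _ ≤ _ := by
      gcongr
      linarith

/-- Non-sufficiency of a set all of whose points have modulus one of the `rad ρ n`. -/
lemma not_sufficient {ρ : ℝ} (hρ : 0 < ρ) (S : Set ℂ) (hS : ∀ z ∈ S, ∃ j : ℕ, ‖z‖ = rad ρ j) :
    ¬ Sufficient ρ S := by
  intro H
  obtain ⟨k', ⟨hk'c, hk'pos, hk'o⟩, C, hC, hmain⟩ := H (wt ρ) (wt_memK hρ)
  obtain ⟨M, hMpos, hM⟩ : ∃ M : ℝ, 0 < M ∧ ∀ z : ℂ, Real.exp (‖z‖ ^ ρ) ≤ M * k' z := by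
    have hcont : Continuous (fun z : ℂ => Real.exp (‖z‖ ^ ρ) / k' z) := by
      apply Continuous.div _ hk'c
      · intro z
        exact (hk'pos z).ne'
      · exact Real.continuous_exp.comp (continuous_norm.rpow_const (fun z => Or.inr hρ.le))
    have hlim : Tendsto (fun z : ℂ => Real.exp (‖z‖ ^ ρ) / k' z) (cocompact ℂ) (nhds 0) := by
      have := (hk'o 1 one_pos).tendsto_div_nhds_zero
      simpa using this
    have hg0 : 0 < Real.exp (‖(0 : ℂ)‖ ^ ρ) / k' 0 := div_pos (Real.exp_pos _) (hk'pos 0)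
    obtain ⟨x, hx⟩ := hcont.exists_forall_ge' 0 (hlim.eventually_le_const hg0)
    refine ⟨Real.exp (‖x‖ ^ ρ) / k' x, div_pos (Real.exp_pos _) (hk'pos x), fun z => ?_⟩
    have := hx z
    rwa [div_le_iff₀ (hk'pos z)] at this
  have key : ∀ n : ℕ, (2 : ℝ) ^ (mexp ρ n) ≤ M * (C * Real.exp ((2 ^ ρ) ^ 2 * R n ^ 2)) := by
    intro n
    have h := hmain (fun z => (M : ℂ)⁻¹ * mono ρ n z) (mono_memE hρ n _) ?_
      ((2 * rad ρ n : ℝ) : ℂ)
    · have hn := rad_pos ρ n
      rw [norm_mul, norm_inv, Complex.norm_real, Real.norm_of_nonneg hMpos.le, norm_mono,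
        Complex.norm_real, Real.norm_of_nonneg (by linarith : (0:ℝ) ≤ 2 * rad ρ n)] at h
      have h2 : 2 * rad ρ n / rad ρ n = 2 := by
        field_simp
      rw [h2] at h
      unfold wt at h
      rw [Complex.norm_real, Real.norm_of_nonneg (by linarith : (0:ℝ) ≤ 2 * rad ρ n)] at h
      rw [inv_mul_le_iff₀ hMpos, Real.mul_rpow (by norm_num) hn.le, rad_rpow hρ, mul_pow] at h
      exact h
    · intro z hz
      rw [norm_mul, norm_inv, Complex.norm_real, Real.norm_of_nonneg hMpos.le,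
        inv_mul_le_iff₀ hMpos]
      obtain ⟨j, hj⟩ := hS z hz
      exact (mono_le hρ n j z hj).trans (hM z)
  have hlim : Tendsto (fun n : ℕ => R n ^ 2 * (R n * (ρ / 2) + (-(2 ^ ρ) ^ 2))) atTop atTop := by
    apply Tendsto.atTop_mul_atTop₀
    · exact (tendsto_pow_atTop (by norm_num)).comp tendsto_R
    · apply tendsto_atTop_add_const_right
      exact tendsto_R.atTop_mul_const (by positivity)
  obtain ⟨n, hn⟩ := (hlim.eventually_gt_atTop (Real.log (M * C) + 1 / 2)).exists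
  have h1 := key n
  have h2 : Real.exp ((ρ * R n ^ 3 - 1) * (1 / 2)) ≤ (2 : ℝ) ^ (mexp ρ n) := by
    have h3 : Real.exp (1 / 2) ≤ 2 := by
      have := Real.exp_one_lt_d9
      have h4 : Real.exp (1 / 2) ^ 2 = Real.exp 1 := by
        rw [← Real.exp_nat_mul]; norm_num
      nlinarith [Real.exp_pos (1 / 2 : ℝ)]
    calc Real.exp ((ρ * R n ^ 3 - 1) * (1 / 2)) ≤ Real.exp ((mexp ρ n : ℝ) * (1 / 2)) := by
          apply Real.exp_le_exp.mpr
          have := lt_mexp ρ n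
          linarith
      _ = Real.exp (1 / 2) ^ (mexp ρ n) := by
          rw [← Real.exp_nat_mul]
      _ ≤ 2 ^ (mexp ρ n) := by gcongr
  have h5 : Real.exp ((ρ * R n ^ 3 - 1) * (1 / 2))
      ≤ M * C * Real.exp ((2 ^ ρ) ^ 2 * R n ^ 2) := by
    linarith
  have h6 : M * C = Real.exp (Real.log (M * C)) := (Real.exp_log (by positivity)).symm
  rw [h6, ← Real.exp_add, Real.exp_le_exp] at h5
  nlinarith

/-- Fine finite nets of the circles. -/
lemma exists_net (ρ : ℝ) (n : ℕ) : ∃ t : Set ℂ, t ⊆ Metric.sphere (0 : ℂ) (rad ρ n) ∧ t.Finite ∧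
    ∀ z ∈ Metric.sphere (0 : ℂ) (rad ρ n), ∃ s ∈ t,
      dist z s < Real.exp (-(n * (rad ρ n + 2) ^ ρ)) := by
  obtain ⟨t, ht, htf, hcov⟩ := (isCompact_sphere (0 : ℂ) (rad ρ n)).finite_cover_balls
    (Real.exp_pos (-(n * (rad ρ n + 2) ^ ρ)))
  refine ⟨t, ht, htf, fun z hz => ?_⟩
  have := hcov hz
  simp only [Set.mem_iUnion, Metric.mem_ball] at this
  obtain ⟨s, hs, hd⟩ := this
  exact ⟨s, hs, hd⟩

/-- For every `ρ > 0` there is a closed discrete set `S` (finitely many points in each disc) such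
that an `f ∈ E_ρ` is bounded on `S` iff it is bounded on `ℂ`, while `S` is not a sufficient set for
`E_ρ`. -/
theorem result (ρ : ℝ) (hρ : 0 < ρ) : ∃ S : Set ℂ,
    (∀ r : ℝ, (S ∩ Metric.closedBall 0 r).Finite) ∧
    (∀ f : ℂ → ℂ, MemE ρ f →
      (Bornology.IsBounded (f '' S) ↔ Bornology.IsBounded (Set.range f))) ∧
    ¬ Sufficient ρ S := by
  choose t ht htf hnet using exists_net ρ
  refine ⟨⋃ n, t n, ?_, ?_, ?_⟩
  · intro r
    obtain ⟨N, hN⟩ := (tendsto_atTop.mp (tendsto_rad hρ) (r + 1)).exists_forall_of_atTop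
    have hsub : (⋃ n, t n) ∩ Metric.closedBall 0 r ⊆ ⋃ n ∈ Set.Iio N, t n := by
      rintro z ⟨hz, hzr⟩
      simp only [Set.mem_iUnion] at hz
      obtain ⟨n, hn⟩ := hz
      simp only [Set.mem_iUnion, Set.mem_Iio]
      refine ⟨n, ?_, hn⟩
      by_contra hnN
      have h1 := hN n (not_lt.mp hnN)
      have h2 := ht n hn
      rw [mem_sphere_zero_iff_norm] at h2
      rw [mem_closedBall_zero_iff] at hzr
      linarith
    exact ((Set.finite_Iio N).biUnion (fun n _ => htf n)).subset hsub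
  · rintro f ⟨hf, A, B, hA, hB, hAB⟩
    constructor
    · intro h
      obtain ⟨M, hM⟩ := h.exists_norm_le
      rw [isBounded_iff_forall_norm_le]
      refine ⟨M + 1, ?_⟩
      rintro _ ⟨w, rfl⟩
      obtain ⟨n, hn, hnAB⟩ := (((tendsto_rad hρ).eventually_gt_atTop ‖w‖).and
        (tendsto_natCast_atTop_atTop.eventually_ge_atTop (A + B))).exists
      have hr : rad ρ n ≠ 0 := (rad_pos ρ n).ne'
      have hr1 := one_le_rad hρ n
      refine Complex.norm_le_of_forall_mem_frontier_norm_le (U := Metric.ball 0 (rad ρ n))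
        Metric.isBounded_ball hf.diffContOnCl ?_ ?_
      · intro z hz
        rw [frontier_ball (0 : ℂ) hr] at hz
        obtain ⟨s, hs, hzs⟩ := hnet n z hz
        have hfs : ‖f s‖ ≤ M := hM _ ⟨s, Set.mem_iUnion.mpr ⟨n, hs⟩, rfl⟩
        have hpow1 : 1 ≤ (rad ρ n + 2) ^ ρ := Real.one_le_rpow (by linarith) hρ.le
        set δ := Real.exp (-(n * (rad ρ n + 2) ^ ρ)) with hδ
        have hδ1 : δ ≤ 1 := by
          rw [hδ]
          apply Real.exp_le_one_iff.mpr
          have : (0 : ℝ) ≤ n * (rad ρ n + 2) ^ ρ := by positivity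
          linarith
        have hssph := ht n hs
        rw [mem_sphere_zero_iff_norm] at hssph
        have hderiv : ∀ p ∈ Metric.ball s δ,
            ‖deriv f p‖ ≤ B * Real.exp (A * (rad ρ n + 2) ^ ρ) := by
          intro p hp
          have h1 : ∀ q ∈ Metric.sphere p 1,
              ‖f q‖ ≤ B * Real.exp (A * (rad ρ n + 2) ^ ρ) := by
            intro q hq
            refine (hAB q).trans ?_
            have hq2 : ‖q‖ ≤ rad ρ n + 2 := by
              have e1 : ‖q - p‖ = 1 := by simpa [dist_eq_norm] using hq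
              have e2 : ‖p - s‖ < δ := by simpa [dist_eq_norm] using hp
              calc ‖q‖ = ‖(q - p) + (p - s) + s‖ := by ring_nf
                _ ≤ ‖q - p‖ + ‖p - s‖ + ‖s‖ := norm_add₃_le
                _ ≤ rad ρ n + 2 := by linarith
            have hq3 : ‖q‖ ^ ρ ≤ (rad ρ n + 2) ^ ρ :=
              Real.rpow_le_rpow (norm_nonneg q) hq2 hρ.le
            gcongr
          have h2 := Complex.norm_deriv_le_of_forall_mem_sphere_norm_le (R := 1) one_pos
            (hf.diffContOnCl (s := Metric.ball p 1)) h1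
          simpa using h2
        have hlip := (convex_ball s δ).norm_image_sub_le_of_norm_deriv_le
          (fun p _ => hf.differentiableAt) hderiv
          (Metric.mem_ball_self (Real.exp_pos _)) (Metric.mem_ball.mpr hzs)
        have hzs' : ‖z - s‖ ≤ δ := by rw [← dist_eq_norm]; exact hzs.le
        have hfin : ‖f z - f s‖ ≤ 1 := by
          calc ‖f z - f s‖ ≤ B * Real.exp (A * (rad ρ n + 2) ^ ρ) * ‖z - s‖ := hlip
            _ ≤ B * Real.exp (A * (rad ρ n + 2) ^ ρ) * δ := by gcongr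
            _ = B * Real.exp ((A - n) * (rad ρ n + 2) ^ ρ) := by
              rw [hδ, mul_assoc, ← Real.exp_add]
              congr 2
              ring
            _ ≤ B * Real.exp (-B) := by
              gcongr
              nlinarith
            _ ≤ 1 := by
              rw [Real.exp_neg, ← div_eq_mul_inv, div_le_one (Real.exp_pos _)]
              linarith [Real.add_one_le_exp B]
        calc ‖f z‖ = ‖(f z - f s) + f s‖ := by ring_nf
          _ ≤ ‖f z - f s‖ + ‖f s‖ := norm_add_le _ _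
          _ ≤ M + 1 := by linarith
      · apply subset_closure
        simpa using hn
    · intro h
      exact h.subset (Set.image_subset_range f _)
  · apply not_sufficient hρ
    intro z hz
    obtain ⟨n, hn⟩ := Set.mem_iUnion.mp hz
    have h2 := ht n hn
    rw [mem_sphere_zero_iff_norm] at h2
    exact ⟨n, h2⟩

end Pool.Agent.Results.MP_529e31_an.DiscreteDetecting
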